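import Pool.Agent.W763.PB.Stm

/-! Project PB, part Y1: compression in the limit. -/

set_option autoImplicit false
open MeasureTheory Filter Topology
open scoped InnerProductSpace BoundedContinuousFunction

namespace Pool.Agent.W55.PB

open Pool.Agent.W763.PB

theorem y1 : S_R1 → S_L3 → S_Y1 := by
  intro _ hL3 k b H _ _ _ U D J E _ _ _ i UE DE hs l n hn x y
  obtain ⟨h1, h2, h3, h4, h5⟩ := hL3 H J E i hs.iJ hs.dense
  have hk := hs.hk
  have hb := hs.hb
  have hb1 : 1 ≤ b := by
    have h : (1 : ℝ) ≤ b := by nlinarith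
    exact_mod_cast h
  have hpow : ∀ S : ℕ, n ≤ b ^ (l + S) := fun S =>
    hn.trans (Nat.pow_le_pow_right hb1 (Nat.le_add_right l S))
  have key : ∀ S : ℕ,
      ⟪ContinuousLinearMap.adjoint (i (l + S)).toContinuousLinearMap (i l x),
        (U (l + S) ^ n) (ContinuousLinearMap.adjoint (i (l + S)).toContinuousLinearMap (i l y))⟫_ℂ =
      ((∏ s ∈ Finset.range S, kap k ((n : ℝ) / ((b ^ (l + s) : ℕ) : ℝ)) : ℝ) : ℂ)
        * ⟪x, (U l ^ n) y⟫_ℂ := by
    intro S
    induction S with
    | zero =>
      simp only [Finset.range_zero, Finset.prod_empty, Complex.ofReal_one, one_mul]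
      show ⟪ContinuousLinearMap.adjoint (i l).toContinuousLinearMap (i l x),
        (U l ^ n) (ContinuousLinearMap.adjoint (i l).toContinuousLinearMap (i l y))⟫_ℂ = _
      rw [h1, h1]
    | succ S ih =>
      have e1 := h3 l (l + S) x (Nat.le_add_right l S)
      have e2 := h3 l (l + S) y (Nat.le_add_right l S)
      have e3 := (hs.step (l + S)).cmp n (hpow S)
        (ContinuousLinearMap.adjoint (i (l + S)).toContinuousLinearMap (i l x))
        (ContinuousLinearMap.adjoint (i (l + S)).toContinuousLinearMap (i l y))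
      show ⟪ContinuousLinearMap.adjoint (i (l + S + 1)).toContinuousLinearMap (i l x),
        (U (l + S + 1) ^ n)
          (ContinuousLinearMap.adjoint (i (l + S + 1)).toContinuousLinearMap (i l y))⟫_ℂ = _
      rw [e1, e2, e3, ih, Finset.prod_range_succ, Complex.ofReal_mul]
      ring
  have hlim : Tendsto (fun m : ℕ => ⟪i l x, i m ((U m ^ n)
      (ContinuousLinearMap.adjoint (i m).toContinuousLinearMap (i l y)))⟫_ℂ) atTop
      (𝓝 ⟪i l x, (UE ^ n) (i l y)⟫_ℂ) :=
    Tendsto.inner tendsto_const_nhds (hs.ul n (i l y))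
  have hadd : Tendsto (fun S : ℕ => l + S) atTop atTop :=
    tendsto_atTop_mono (fun S => Nat.le_add_left S l) tendsto_id
  refine (hlim.comp hadd).congr fun S => ?_
  rw [← key S]
  show ⟪i l x, i (l + S) ((U (l + S) ^ n)
      (ContinuousLinearMap.adjoint (i (l + S)).toContinuousLinearMap (i l y)))⟫_ℂ = _
  rw [ContinuousLinearMap.adjoint_inner_left]
  rfl

end Pool.Agent.W55.PB
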